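import Pool.Agent.P8H28.OP.Rel

/-!
# Adjunction of an algebraic class to a system
-/

set_option autoImplicit false
set_option linter.unusedSectionVars false

open CategoryTheory AlgebraicGeometry

universe u v

namespace Pool.Agent.P8H28.AO

open Module
open Pool.Agent.H914 Pool.Agent.H914.VarClass Pool.Agent.H914.VarClass.Obj
  Pool.Agent.H914.WeilCohomology
open Pool.Agent.Y133.Half Pool.Agent.Y133.Half.Sys
open Pool.Agent.Y121.AH (op_map op_push)
open Pool.Agent.P8H28.OP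

variable {k : Type u} [Field k] {𝒱 : VarClass k} {ops : CycleOps 𝒱}
  {W : WeilCohomology.{u, v} ops} {S S' : Sys W} {P Q Z Z' X Y : 𝒱.Obj}

/-! ### Products of the classes -/

lemma orbT_trans {w : W.H Q} {y : W.H P} {x : W.H Z} (hx : x ∈ orbT S y Z)
    (hy : y ∈ orbT S w P) : x ∈ orbT S w Z := by
  obtain ⟨f, hf, rfl⟩ := mem_orbT.1 hx
  exact orbT_op hf hy

lemma orbT_map (f : Z ⟶ P) (x : W.H P) : W.map f x ∈ orbT S x Z :=
  mem_orbT.2 ⟨(W.map f).toLinearMap, op_map S f, rfl⟩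

lemma orbT_swap {a : W.H X} (ha : a ∈ PH W X 0) (b : W.H Y) :
    xp W a b ∈ orbT S (xp W b a) (X.prod Y) := by
  have h1 : W.map (swap X Y) (xp W b a) = xp W a b := by
    rw [xp, map_mul, ← W.map_comp, ← W.map_comp, swap_fst, swap_snd, xp]
    exact (PH.even_comm (PH.map (fst X Y) ha) _).symm
  rw [← h1]
  exact orbT_map _ _

lemma orbT_even {w : W.H P} (hw : w ∈ PH W P 0) {x : W.H Z} (hx : x ∈ orbT S w Z) :
    x ∈ PH W Z 0 := by
  obtain ⟨f, hf, rfl⟩ := mem_orbT.1 hx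
  exact Op.ev hf 0 _ hw

lemma xp_orb {u : W.H P} {v : W.H Q} {x : W.H Z} {y : W.H Z'} (hu : u ∈ PH W P 0)
    (hv : v ∈ PH W Q 0) (hx : x ∈ orbT S u Z) (hy : y ∈ orbT S v Z') :
    xp W x y ∈ orbT S (xp W u v) (Z.prod Z') :=
  orbT_trans (orbT_xp (orbT_even hv hy) hx) (orbT_trans (orbT_swap hu y)
    (orbT_trans (orbT_xp hu hy) (orbT_swap hv u)))

/-- The map to the product of the two numbers of factors. -/
noncomputable def phi (X Q : 𝒱.Obj) (i : ℕ) : ∀ i' : ℕ,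
    (qn X Q i).prod (qn X Q i') ⟶ qn X Q (i + i')
  | 0 => fst (qn X Q i) (qn X Q 0)
  | i' + 1 => (Obj.lift (Obj.lift (fst (qn X Q i) ((qn X Q i').prod Q))
      (snd (qn X Q i) ((qn X Q i').prod Q) ≫ fst (qn X Q i') Q) ≫ phi X Q i i')
      (snd (qn X Q i) ((qn X Q i').prod Q) ≫ snd (qn X Q i') Q) :
        (qn X Q i).prod ((qn X Q i').prod Q) ⟶ (qn X Q (i + i')).prod Q)

lemma map_lift (f : Z ⟶ P) (g : Z ⟶ Q) (u : W.H P) (v : W.H Q) :
    W.map (Obj.lift f g) (xp W u v) = W.map f u * W.map g v := by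
  rw [xp, map_mul, ← W.map_comp, ← W.map_comp, Obj.lift_fst, Obj.lift_snd]

lemma map_phi (q : W.H Q) (i : ℕ) : ∀ i', W.map (phi X Q i i') (un W (1 : W.H X) q (i + i')) =
    xp W (un W (1 : W.H X) q i) (un W (1 : W.H X) q i')
  | 0 => by
    change W.map (fst (qn X Q i) (qn X Q 0)) (un W (1 : W.H X) q i) = W.map _ _ * W.map _ 1
    rw [map_one, mul_one]
  | i' + 1 => by
    change W.map (Obj.lift (Obj.lift (fst (qn X Q i) ((qn X Q i').prod Q))
      (snd (qn X Q i) ((qn X Q i').prod Q) ≫ fst (qn X Q i') Q) ≫ phi X Q i i')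
      (snd (qn X Q i) ((qn X Q i').prod Q) ≫ snd (qn X Q i') Q))
        (xp W (un W (1 : W.H X) q (i + i')) q) =
      W.map (fst (qn X Q i) ((qn X Q i').prod Q)) (un W 1 q i) *
        W.map (snd (qn X Q i) ((qn X Q i').prod Q)) (xp W (un W 1 q i') q)
    rw [map_lift, W.map_comp, map_phi q i i', map_lift, xp, map_mul, W.map_comp, W.map_comp,
      mul_assoc]

lemma un_even' {a : W.H X} (ha : a ∈ PH W X 0) {v : W.H Q} (hv : v ∈ PH W Q 0) :
    ∀ m, un W a v m ∈ PH W (qn X Q m) 0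
  | 0 => ha
  | m + 1 => by
    have h := PH.mul (PH.map (fst (qn X Q m) Q) (un_even' ha hv m)) (PH.map (snd (qn X Q m) Q) hv)
    exact h

lemma one_even (X : 𝒱.Obj) : (1 : W.H X) ∈ PH W X 0 := PH.of' (b := 0) (i := 0) (by omega) (W.one_mem X)

lemma mul_orb {q : W.H Q} (hq : q ∈ PH W Q 0) {i i' : ℕ} {x y : W.H Z}
    (hx : x ∈ orbT S (un W (1 : W.H X) q i) Z) (hy : y ∈ orbT S (un W (1 : W.H X) q i') Z) :
    x * y ∈ orbT S (un W (1 : W.H X) q (i + i')) Z := by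
  have h1 : x * y = W.map (diag Z) (xp W x y) := by
    rw [diag, map_lift, W.map_id, W.map_id]
  rw [h1]
  refine orbT_trans (orbT_map _ _) (orbT_trans (xp_orb (un_even' (one_even X) hq i)
    (un_even' (one_even X) hq i') hx hy) ?_)
  rw [← map_phi q i i']
  exact orbT_map _ _

/-! ### The classes of the system -/

lemma orbT_class {l : W.H X} (hl : l ∈ S.C X) (hl1 : W.tr X l = 1) {c : W.H Z} (hc : c ∈ S.C Z) :
    c ∈ orbT S (1 : W.H X) Z := by
  refine mem_orbT.2 ⟨W.corr (xp W l c), Op.corr (Sys.xp_mem_C S hl hc), ?_⟩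
  rw [corr_xp _ (S.even hc) (one_even X), zero_mul, pow_zero, one_mul, mul_one, hl1, one_smul]

variable {q : W.H Q}

lemma EE_class {l : W.H X} (hl : l ∈ S.C X) (hl1 : W.tr X l = 1) (t : ℕ) {c : W.H Z}
    (hc : c ∈ S.C Z) : c ∈ EE S (un W (1 : W.H X) q) Z t :=
  EE_mono (Nat.zero_le t) (orbT_class hl hl1 hc)

lemma EE_mul (hq : q ∈ PH W Q 0) {t : ℕ}
    (hrel : ∀ m, un W (1 : W.H X) q m ∈ EE S (un W (1 : W.H X) q) (qn X Q m) t) {x y : W.H Z}
    (hx : x ∈ EE S (un W (1 : W.H X) q) Z t) (hy : y ∈ EE S (un W (1 : W.H X) q) Z t) :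
    x * y ∈ EE S (un W (1 : W.H X) q) Z t := by
  refine EE_ind (p := fun x => x * y ∈ EE S (un W (1 : W.H X) q) Z t) ?_ t ?_ hx
  · intro x x' hx hx'
    rw [add_mul]
    exact Submodule.add_mem _ hx hx'
  · intro i hi f hf
    refine EE_ind (p := fun y => f (un W 1 q i) * y ∈ EE S (un W (1 : W.H X) q) Z t) ?_ t ?_ hy
    · intro x x' hx hx'
      rw [mul_add]
      exact Submodule.add_mem _ hx hx'
    · intro i' hi' f' hf'
      have h1 := mul_orb (S := S) (X := X) hq (mem_orbT.2 ⟨f, hf, rfl⟩) (mem_orbT.2 ⟨f', hf', rfl⟩)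
      obtain ⟨g, hg, hgx⟩ := mem_orbT.1 h1
      rw [← hgx]
      exact EE_op hg t (hrel _)

/-- The system generated by the class `q`, which satisfies a polynomial relation. -/
noncomputable def adj (S : Sys W) {X Q : 𝒱.Obj} {q : W.H Q} (hq : q ∈ PH W Q 0) {l : W.H X}
    (hl : l ∈ S.C X) (hl1 : W.tr X l = 1) {t : ℕ}
    (h : un W (1 : W.H X) q (t + 1) ∈ EE S (un W (1 : W.H X) q) (qn X Q (t + 1)) t) : Sys W where
  C Z := EE S (un W (1 : W.H X) q) Z t
  even {Z c} hc := EE_ind (p := fun x => x ∈ PH W Z 0) (fun _ _ hx hy => Submodule.add_mem _ hx hy) t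
    (fun i _ _ hf => Op.ev hf 0 _ (un_even' (one_even X) hq i)) hc
  one Z := EE_class hl hl1 t (S.one Z)
  mul hx hy := EE_mul hq (rel_all hq h) hx hy
  map f _ hx := EE_op (op_map S f) t hx
  push := by
    intro X' Y' f c hx
    have h1 : (W.push f : W.H X' →ₗ[W.K] W.H Y') ∈ S.Op X' Y' := by
      have h2 := op_push S f (S.one X')
      rwa [LinearMap.mulLeft_one, LinearMap.comp_id] at h2
    exact EE_op h1 t hx

end Pool.Agent.P8H28.AO
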