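import Pool.Agent.P8H28.AO.Op
import Pool.Agent.Y121.AH.Coef

/-!
# One polynomial for all comparison isomorphisms
-/

set_option autoImplicit false
set_option linter.unusedSectionVars false

open CategoryTheory AlgebraicGeometry TensorProduct

universe u

namespace Pool.Agent.P8H28.AO

open Module
open Pool.Agent.H914 Pool.Agent.H914.VarClass Pool.Agent.H914.VarClass.Obj
  Pool.Agent.H914.WeilCohomology
open Pool.Agent.Y133.Half Pool.Agent.Y133.Half.Sys
open Pool.Agent.Y121.AH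
open Pool.Agent.P8H28.OP

variable {k : Type u} [Field k] {𝒱 : VarClass k} {ops : CycleOps 𝒱}

section Un

variable {X Q : 𝒱.Obj}

lemma un_gr {W : WeilCohomology.{u, 0} ops} {a : W.H X} (ha : a ∈ W.gr X 0) {j : ℕ} {q : W.H Q}
    (hq : q ∈ W.gr Q (2 * j)) : ∀ m, un W a q m ∈ W.gr (qn X Q m) (2 * (j * m))
  | 0 => by rw [mul_zero, mul_zero]; exact ha
  | m + 1 => by
    have h : xp W (un W a q m) q ∈ W.gr ((qn X Q m).prod Q) (2 * (j * m) + 2 * j) :=
      W.mul_mem (W.map_mem _ (un_gr ha hq m)) (W.map_mem _ hq)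
    rw [show 2 * (j * (m + 1)) = 2 * (j * m) + 2 * j by ring]
    exact h

variable {T T' : HodgeTheory ops} {L : Type} [Field L] [Algebra T.W.K L] [Algebra T'.W.K L]
  (C : Comparison (baseW T.W L) (baseW T'.W L))

lemma val_un {l : T'.W.H X} (hl : l ∈ PH T'.W X 0) (hl1 : T'.W.tr X l = 1) {j : ℕ} {q : T.W.H Q}
    (hq : q ∈ T.W.gr Q (2 * j)) {y : T'.W.H Q} (hy : y ∈ PH T'.W Q 0) : ∀ m,
    val C (qn X Q m) (j * m) (un T.W 1 q m) (un T'.W l y m) = val C Q j q y ^ m
  | 0 => by rw [mul_zero, pow_zero]; exact val_one C hl1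
  | m + 1 => by
    have h := val_xp C (i := j * m) (j := j) (un T.W (1 : T.W.H X) q m)
      (un_even hl hy m) hq y
    rw [val_un hl hl1 hq hy m, ← pow_succ] at h
    exact h

end Un

section Fam

variable {T T' : HodgeTheory ops} {J : Type u} {L : J → Type} [∀ a, Field (L a)]
  [∀ a, Algebra T.W.K (L a)] [∀ a, Algebra T'.W.K (L a)]
  (C : ∀ a, Comparison (baseW T.W (L a)) (baseW T'.W (L a))) {X P Q Z : 𝒱.Obj}
  (D : Conjugates T)
  (hC : ∀ (Z : 𝒱.Obj) (i : ℕ) z, IsAbsHodge D Z i z → ∃ z', IsHodge T' Z i z' ∧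
      ∀ a, nrm (C a) Z i z = em T'.W (L a) z')

include hC in
/-- The coefficients of a class with a polynomial relation are algebraic. -/
theorem integral_of_rel {l : T'.W.H X} (hl : l ∈ PH T'.W X 0) (hl1 : T'.W.tr X l = 1) {j : ℕ}
    {q : T.W.H Q} (hq : q ∈ T.W.gr Q (2 * j)) {y : T'.W.H Q} (hy : y ∈ PH T'.W Q 0)
    (h : ¬ NoRel (absSys D) (1 : T.W.H X) q) : IsIntegral T.W.K (vv C Q j q y) := by
  unfold NoRel at h
  push Not at h
  obtain ⟨t, h⟩ := h
  have hrel := rel_all (PH.of' (b := 0) (by omega) hq) h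
  choose M hM hM' using fun i => exists_finA C (qn X Q i)
  have h1X : (1 : T.W.H X) ∈ T.W.gr X 0 := by
    rw [← T.W.cl_fund X]
    exact T.W.cl_mem X.V.fundCycle_mem
  refine isIntegral_of_pow_mem (M := ⨆ i : Fin (t + 1), M i) fun m => ?_
  have h1 : vv C Q j q y ^ m = vv C (qn X Q m) (j * m) (un T.W 1 q m) (un T'.W l y m) := by
    funext a
    rw [Pi.pow_apply]
    exact (val_un (C a) hl hl1 hq hy m).symm
  rw [h1]
  have h2 := EE_ind (S := absSys D) (w := un T.W (1 : T.W.H X) q) (Z := qn X Q m)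
    (p := fun x => vv C (qn X Q m) (j * m)
      (H914.proj (T.W.isInternal (qn X Q m)) (2 * (j * m)) x) (un T'.W l y m) ∈
        ⨆ i : Fin (t + 1), M i) ?_ t ?_ (hrel m)
  · rw [proj_same _ (un_gr h1X hq m)] at h2
    exact h2
  · intro x x' hx hx'
    rw [map_add, vv_add_left]
    exact Submodule.add_mem _ hx hx'
  · intro i hi f hf
    refine vv_op C D hC (fun j hj x y => ?_) (un_gr h1X hq i) hf
    exact Submodule.mem_iSup_of_mem (⟨i, by omega⟩ : Fin (t + 1)) (hM' i j hj x y)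

/-- The roots of a polynomial generate a field. -/
def rts (L : Type) [Field L] (μ : Polynomial ℤ) : Subfield L :=
  Subfield.closure {x | μ.eval₂ (Int.castRingHom L) x = 0}

/-- A polynomial with integral coefficients. -/
lemma exists_int {K : Type} [Field K] [CharZero K] (hK : ∀ r : K, ∃ q : ℚ, (q : K) = r)
    {p : Polynomial K} (hp : p ≠ 0) : ∃ μ : Polynomial ℤ, μ ≠ 0 ∧ ∀ (L : Type) [Field L]
      [Algebra K L] (x : L), Polynomial.aeval x p = 0 → μ.eval₂ (Int.castRingHom L) x = 0 := by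
  let e : ℚ ≃+* K := RingEquiv.ofBijective (Rat.castHom K) ⟨(Rat.castHom K).injective, hK⟩
  have he : (Rat.castHom K).comp (e.symm : K →+* ℚ) = RingHom.id K := by
    ext x
    exact e.apply_symm_apply x
  set p₀ : Polynomial ℚ := p.map (e.symm : K →+* ℚ) with hp₀
  have h1 : p₀.map (Rat.castHom K) = p := by
    rw [hp₀, Polynomial.map_map, he, Polynomial.map_id]
  have h0 : p₀ ≠ 0 := by
    intro h
    rw [h, Polynomial.map_zero] at h1
    exact hp h1.symm
  refine ⟨IsLocalization.integerNormalization (nonZeroDivisors ℤ) p₀, ?_, ?_⟩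
  · intro h
    exact h0 ((IsFractionRing.integerNormalization_eq_zero_iff (A := ℤ)).1 h)
  · intro L _ _ x hx
    have : CharZero L := charZero_of_injective_algebraMap (algebraMap K L).injective
    have h2 : Polynomial.aeval x p₀ = 0 := by
      rw [← h1, Polynomial.aeval_def, Polynomial.eval₂_map] at hx
      rw [Polynomial.aeval_def, ← hx]
      congr 1
      exact RingHom.ext_rat _ _
    have h3 := IsLocalization.integerNormalization_aeval_eq_zero (nonZeroDivisors ℤ) p₀ h2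
    rw [Polynomial.aeval_def] at h3
    rw [← h3]
    congr 1

lemma integral_root {K : Type} [Field K] [CharZero K] (hK : ∀ r : K, ∃ q : ℚ, (q : K) = r)
    {J : Type u} {L : J → Type} [∀ a, Field (L a)]
    [∀ a, Algebra K (L a)] {v : ∀ a, L a} (h : IsIntegral K v) :
    ∃ μ : Polynomial ℤ, μ ≠ 0 ∧ ∀ a, μ.eval₂ (Int.castRingHom (L a)) (v a) = 0 := by
  obtain ⟨p, hp, h0⟩ := h
  obtain ⟨μ, hμ, h3⟩ := exists_int hK hp.ne_zero
  refine ⟨μ, hμ, fun a => h3 _ _ ?_⟩
  have h1 : Polynomial.aeval v p = 0 := h0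
  have h2 := Polynomial.aeval_algHom_apply (Pi.evalAlgHom K L a) v p
  rw [h1, map_zero] at h2
  exact h2

variable (hint : ∀ j q, IsHodge T Q j q → ∀ y ∈ PH T'.W Q 0, IsIntegral T.W.K (vv C Q j q y))
  (hs : ∀ a j v, IsHodge T Q j v → nrm (C a) Q j v ∈ Submodule.span (baseW T'.W (L a)).K
    {x | ∃ c', IsHodge T' Q j c' ∧ em T'.W (L a) c' = x})

include hint hs

/-- The polynomial for one degree. -/
theorem exists_poly_deg {j : ℕ} (hj : j ≤ Q.dim) :
    ∃ μ : Polynomial ℤ, μ ≠ 0 ∧ ∀ ν : Polynomial ℤ, μ ∣ ν → ∀ a v, IsHodge T Q j v →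
      nrm (C a) Q j v ∈ hodgeSums T' (L a) (rts (L a) ν) Q j := by
  have : CharZero T.W.K := T.W.charZero
  obtain ⟨r, h, y, hh, hy, hw⟩ := exists_coord_all T' Q hj
  let b := Module.finBasis T.W.K (hodgeSub T Q j)
  have h1 : ∀ p : Fin (finrank T.W.K (hodgeSub T Q j)) × Fin r,
      ∃ p' : Polynomial ℤ, p' ≠ 0 ∧
        ∀ a, p'.eval₂ (Int.castRingHom (L a)) (vv C Q j (b p.1 : T.W.H Q) (y p.2) a) = 0 :=
    fun p => integral_root T.rat (hint j _ (b p.1).2 _ (hy p.2))
  choose f hf hf' using h1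
  refine ⟨∏ p, f p, Finset.prod_ne_zero_iff.2 fun p _ => hf p, fun ν hν a v hv => ?_⟩
  have h2 : ∀ v : hodgeSub T Q j, ∀ i, val (C a) Q j (v : T.W.H Q) (y i) ∈ rts (L a) ν := by
    intro v i
    refine basis_ind b (p := fun v => val (C a) Q j (v : T.W.H Q) (y i) ∈ rts (L a) ν) ?_ ?_ ?_ v
    · rw [Submodule.coe_zero, val_zero_left]; exact zero_mem _
    · intro v v' hv hv'
      rw [Submodule.coe_add, val_add_left]; exact add_mem hv hv'
    · intro s l
      obtain ⟨s, rfl⟩ := T.rat s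
      rw [Submodule.coe_smul, val_smul_left, Algebra.smul_def, map_ratCast]
      refine mul_mem (SubfieldClass.ratCast_mem _ s) (Subfield.subset_closure ?_)
      change ν.eval₂ (Int.castRingHom (L a)) (vv C Q j (b l : T.W.H Q) (y i) a) = 0
      obtain ⟨ρ, hρ⟩ := (Finset.dvd_prod_of_mem f (Finset.mem_univ (l, i))).trans hν
      rw [hρ, Polynomial.eval₂_mul, hf' (l, i) a, zero_mul]
  have h3 := h2 ⟨v, hv⟩
  rw [hw (L a) _ (hs a j v hv)]
  exact sum_mem_hodgeSums _ h3 hh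

/-- The polynomial for all degrees. -/
theorem exists_poly :
    ∃ μ : Polynomial ℤ, μ ≠ 0 ∧ ∀ a j v, IsHodge T Q j v →
      nrm (C a) Q j v ∈ hodgeSums T' (L a) (rts (L a) μ) Q j := by
  choose f hf hf' using fun j : Fin (Q.dim + 1) =>
    exists_poly_deg C hint hs (Nat.lt_succ_iff.1 j.2)
  refine ⟨∏ j, f j, Finset.prod_ne_zero_iff.2 fun j _ => hf j, fun a j v hv => ?_⟩
  by_cases hj : j ≤ Q.dim
  · exact hf' ⟨j, by omega⟩ _ (Finset.dvd_prod_of_mem f (Finset.mem_univ _)) a v hv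
  · rw [hodge_gt (by omega) hv, nrm_zero]
    exact AddSubmonoid.zero_mem _

end Fam

end Pool.Agent.P8H28.AO
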