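import Pool.Agent.P8H28.AO.Defs
import Pool.Agent.P8H28.AT.Conv

/-!
# Comparison of the definitions
-/

set_option autoImplicit false
set_option linter.unusedSectionVars false

open CategoryTheory AlgebraicGeometry TensorProduct

universe u

namespace Pool.Agent.P8H28.AO

open Module
open Pool.Agent.H914 Pool.Agent.H914.VarClass Pool.Agent.H914.VarClass.Obj
  Pool.Agent.H914.WeilCohomology
open Pool.Agent.Y121 Pool.Agent.Y121.AHS Pool.Agent.N996.FP
open Pool.Agent.Y133.Half (pw)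

section Ext

variable {K A : Type} [Field K] [Algebra K ℂ] [Ring A] [Algebra K A]

lemma sigma_eq {σ : Ext K ℂ A → Ext K ℂ A} (h : AT.IsRat K) (h0 : ∀ x y, σ (x + y) = σ x + σ y)
    (h1 : ∀ z a, σ (extSm K ℂ z (extEm K ℂ a)) = extSm K ℂ (starRingEnd ℂ z) (extEm K ℂ a))
    (x : Ext K ℂ A) : σ x = AT.bar h x := by
  have hs : ∀ (z : ℂ) (a : A), extSm K ℂ z (extEm K ℂ a) = (show Ext K ℂ A from z ⊗ₜ[K] a) := by
    intro z a
    change (z • ((1 : ℂ) ⊗ₜ[K] a) : ℂ ⊗[K] A) = z ⊗ₜ[K] a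
    rw [TensorProduct.smul_tmul', smul_eq_mul, mul_one]
  have hz : σ 0 = 0 := by
    have h2 := h0 0 0
    rw [add_zero] at h2
    exact left_eq_add.1 h2
  change σ x = TensorProduct.map (AT.conjK h) (LinearMap.id : A →ₗ[K] A) (show ℂ ⊗[K] A from x)
  induction x using TensorProduct.induction_on with
  | zero => exact hz.trans (map_zero _).symm
  | tmul z a =>
    have h2 := h1 z a
    rw [hs, hs] at h2
    exact h2
  | add x y hx hy =>
    refine (h0 x y).trans ?_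
    rw [hx, hy]
    exact (map_add _ _ _).symm

lemma polarises {tr : A →ₗ[K] K} {f : A →ₗ[K] A} {σ : Ext K ℂ A → Ext K ℂ A} (h : AT.IsRat K)
    {ty : ℤ → ℤ → Ext K ℂ A → Prop} {d : ℤ} (hP : Polarises tr f σ ty d) :
    AT.Polarises tr f h ty d where
  conj p q x hx := by
    rw [← sigma_eq h hP.add hP.bar]
    exact hP.conj p q x hx
  orth p q r s x y hx hy hne := hP.orth p q r s x y hx hy hne
  pos p q x hx h0 := by
    rw [← sigma_eq h hP.add hP.bar]
    exact hP.pos p q x hx h0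

lemma isExp_of {tr : A →ₗ[K] K} (h : AT.IsRat K) {ty : ℤ → ℤ → Ext K ℂ A → Prop} {d t N : ℕ}
    (hN : IsExp tr ty d t N) : AT.IsExp tr h ty d t N := by
  obtain ⟨f, σ, h1, h2⟩ := hN
  refine ⟨f, polarises h h1, ?_⟩
  rcases h2 with ⟨h2, h3⟩ | ⟨h2, h3⟩ | h2
  · exact Or.inl ⟨fun g hg c d => h2 g hg c d, h3⟩
  · exact Or.inr (Or.inl ⟨fun g hg F hF => h2 g hg F hF, h3⟩)
  · exact Or.inr (Or.inr h2)

end Ext

variable {k : Type u} [Field k] {𝒱 : VarClass k} {ops : CycleOps 𝒱} {T : HodgeTheory ops}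
  {X Y : 𝒱.Obj}

lemma dimSpan_eq {P : ℕ → T.W.H X → Prop} : dimSpan T.W X P = AT.dimSpan T.W X P := rfl

lemma from_iff {D : Full.Conjugates T} : FromPowersAbs D X Y ↔ AT.FromPowersAbs D X Y := Iff.rfl

end Pool.Agent.P8H28.AO
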