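import Pool.Agent.P8H28.AO.Adj
import Pool.Agent.P8H28.AT.Low
import Pool.Agent.Y133.Half.PairLaw

/-!
# Algebraic classes have finite index
-/

set_option autoImplicit false
set_option linter.unusedSectionVars false

open CategoryTheory AlgebraicGeometry

universe u v

namespace Pool.Agent.P8H28.AO

open Module
open Pool.Agent.H914 Pool.Agent.H914.VarClass Pool.Agent.H914.VarClass.Obj
  Pool.Agent.H914.WeilCohomology
open Pool.Agent.Y133.Half Pool.Agent.Y133.Half.Sys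
open Pool.Agent.Y121.AH (op_map op_push)
open Pool.Agent.P8H28.OP

variable {k : Type u} [Field k] {𝒱 : VarClass k} {ops : CycleOps 𝒱}
  {W : WeilCohomology.{u, v} ops} {S S' T : Sys W} {P Q Z Z' X : 𝒱.Obj}

lemma Op_mono (h : ∀ Z, S.C Z ≤ S'.C Z) {f : W.H P →ₗ[W.K] W.H Z} (hf : f ∈ S.Op P Z) :
    f ∈ S'.Op P Z := Submodule.map_mono (h _) hf

lemma orbT_le (h : ∀ Z, S.C Z ≤ S'.C Z) (w : W.H P) : orbT S w Z ≤ orbT S' w Z := by
  intro x hx
  obtain ⟨f, hf, rfl⟩ := mem_orbT.1 hx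
  exact mem_orbT.2 ⟨f, Op_mono h hf, rfl⟩

lemma EE_le (h : ∀ Z, S.C Z ≤ S'.C Z) {Y : ℕ → 𝒱.Obj} (w : ∀ i, W.H (Y i)) :
    ∀ t, EE S w Z t ≤ EE S' w Z t
  | 0 => orbT_le h _
  | t + 1 => sup_le_sup (EE_le h w t) (orbT_le h _)

lemma rel_mono (h : ∀ Z, S.C Z ≤ S'.C Z) {q : W.H Q} (hq : ¬ NoRel S (1 : W.H X) q) :
    ¬ NoRel S' (1 : W.H X) q := by
  unfold NoRel at hq ⊢
  push Not at hq ⊢
  obtain ⟨t, ht⟩ := hq
  exact ⟨t, EE_le h _ _ ht⟩

/-! ### Dimensions -/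

lemma finrank_orbT (w : W.H P) : finrank W.K (orbT S w Z) ≤ finrank W.K (S.C (P.prod Z)) :=
  (Submodule.finrank_map_le _ _).trans (Submodule.finrank_map_le _ _)

lemma finrank_EE {Y : ℕ → 𝒱.Obj} (w : ∀ i, W.H (Y i)) {M : ℕ} : ∀ t,
    (∀ i ≤ t, finrank W.K (S.C ((Y i).prod Z)) ≤ M) → finrank W.K (EE S w Z t) ≤ (t + 1) * M
  | 0, h => by
    rw [zero_add, one_mul]
    exact (finrank_orbT _).trans (h 0 le_rfl)
  | t + 1, h => by
    have h1 := Submodule.finrank_add_le_finrank_add_finrank (EE S w Z t) (orbT S (w (t + 1)) Z)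
    have h2 := finrank_EE w t fun i hi => h i (by omega)
    have h3 := (finrank_orbT (S := S) (Z := Z) (w (t + 1))).trans (h (t + 1) le_rfl)
    change finrank W.K (EE S w Z t ⊔ orbT S (w (t + 1)) Z : Submodule W.K (W.H Z)) ≤ _
    have h4 : (t + 1 + 1) * M = (t + 1) * M + M := by ring
    omega

lemma qn_iso (X : 𝒱.Obj) (κ : ℕ) : ∀ i, Nonempty (qn X (pw X κ) i ≅ pw X (i * (κ + 1)))
  | 0 => by rw [zero_mul]; exact ⟨Iso.refl _⟩
  | i + 1 => by
    obtain ⟨θ⟩ := qn_iso X κ i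
    have h : (i + 1) * (κ + 1) = i * (κ + 1) + κ + 1 := by ring
    rw [h]
    exact ⟨prodCongr θ (Iso.refl _) ≪≫ pwAdd X _ κ⟩

variable {l : W.H X}

lemma map_inj (hl : l ∈ S.C X) (hl1 : W.tr X l = 1) (n : ℕ) :
    Function.Injective (W.map (pfst X n)) := by
  intro x y hxy
  have h1 : ∀ x : W.H (pw X n), W.push (pfst X n) (W.map (pfst X n) x * W.map (psnd X n) l) = x := by
    intro x
    have h5 := Pool.Agent.Y133.Half.push_fst x l (S.even hl)
    rw [hl1, one_smul] at h5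
    exact h5
  rw [← h1 x, ← h1 y, hxy]

/-- The number of the classes on the powers. -/
noncomputable def sn (S : Sys W) (X : 𝒱.Obj) (n : ℕ) : ℕ := finrank W.K (S.C (pw X n))

lemma sn_succ (hl : l ∈ S.C X) (hl1 : W.tr X l = 1) (n : ℕ) : sn S X n ≤ sn S X (n + 1) :=
  S.finrank_C_le (pfst X n) (map_inj hl hl1 n)

lemma sn_mono (hl : l ∈ S.C X) (hl1 : W.tr X l = 1) {m n : ℕ} (h : m ≤ n) :
    sn S X m ≤ sn S X n :=
  monotone_nat_of_le_succ (f := sn S X) (sn_succ hl hl1) h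

lemma finrank_adj (hl : l ∈ S.C X) (hl1 : W.tr X l = 1) {κ : ℕ} {q : W.H (pw X κ)} (t n : ℕ) :
    finrank W.K (EE S (un W (1 : W.H X) q) (pw X n) t) ≤
      (t + 1) * sn S X (n + (t * (κ + 1) + 1)) := by
  refine finrank_EE _ t fun i hi => ?_
  obtain ⟨θ⟩ := qn_iso X κ i
  rw [S.finrank_C_iso (prodCongr θ (Iso.refl (pw X n)) ≪≫ pwAdd X (i * (κ + 1)) n)]
  refine sn_mono hl hl1 ?_
  have h1 := Nat.mul_le_mul_right (κ + 1) hi
  omega

lemma sn_up (hS : ∀ Z : 𝒱.Obj, S.Num Z = ⊥) (hl : l ∈ S.C X) (hl1 : W.tr X l = 1) (n p : ℕ) :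
    sn S X (n + p + 1) ≤ finrank W.K (W.H X) ^ (p + 2) * sn S X n := by
  have ha : ∀ m, S.a (pw X m) = sn S X m := fun m => Pool.Agent.P8H28.AT.a_eq (hS _)
  have hal : ∀ l, S.al X l = sn S X (l + l + 1) := by
    intro l
    rw [← ha]
    exact S.a_iso (pwAdd X l l)
  have h1 : (1 : W.H X) ≠ 0 := by
    intro h0
    have h2 : l = 0 := by rw [← mul_one l, h0, mul_zero]
    rw [h2, map_zero] at hl1
    exact zero_ne_one hl1
  have hX : 0 < finrank W.K (W.H X) := by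
    have : Nontrivial (W.H X) := ⟨⟨1, 0, h1⟩⟩
    exact Module.finrank_pos
  rcases Nat.eq_zero_or_pos n with rfl | hn
  · have h2 : sn S X (0 + p + 1) ≤ finrank W.K (W.H X) ^ (p + 2) := by
      have h3 := Submodule.finrank_le (S.C (pw X (0 + p + 1)))
      rw [finrank_pw, show 0 + p + 1 + 1 = p + 2 by ring] at h3
      exact h3
    have h3 : 1 ≤ sn S X 0 := by
      have : Nontrivial (W.H X) := ⟨⟨1, 0, h1⟩⟩
      exact Sys.finrank_pos_pw (X := X) S 0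
    calc _ ≤ _ := h2
      _ = finrank W.K (W.H X) ^ (p + 2) * 1 := (mul_one _).symm
      _ ≤ _ := Nat.mul_le_mul_left _ h3
  rcases Nat.even_or_odd' n with ⟨r, hr | hr⟩
  · obtain ⟨l', rfl⟩ : ∃ l', r = l' + 1 := ⟨r - 1, by omega⟩
    have h2 := Pool.Agent.P8H28.AT.a_up (S := S) (X := X) (m₀ := p + 1) (l := l') (n := n + p + 1) (by omega)
    rw [ha, hal] at h2
    exact h2.trans (Nat.mul_le_mul_left _ (sn_mono hl hl1 (by omega)))
  · have h2 := Pool.Agent.P8H28.AT.a_up (S := S) (X := X) (m₀ := p) (l := r) (n := n + p + 1) (by omega)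
    rw [ha, hal] at h2
    refine h2.trans ?_
    rw [show r + r + 1 = n by omega]
    exact Nat.mul_le_mul_right _ (Nat.pow_le_pow_right hX (by omega))

/-! ### The chain of systems -/

lemma un_memC {q : W.H Q} (hq : q ∈ T.C Q) : ∀ i,
    un W (1 : W.H X) q i ∈ T.C (qn X Q i)
  | 0 => T.one X
  | i + 1 => Sys.xp_mem_C T (un_memC hq i) hq

lemma self_mem (hl : l ∈ S.C X) (hl1 : W.tr X l = 1) {q : W.H Q} (hq : q ∈ PH W Q 0) {t : ℕ}
    (hrel : ∀ m, un W (1 : W.H X) q m ∈ EE S (un W (1 : W.H X) q) (qn X Q m) t) :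
    q ∈ EE S (un W (1 : W.H X) q) Q t := by
  have h1 := EE_op (op_push S (snd X Q) (S.map (fst X Q) hl)) t (hrel 1)
  have h2 : (W.push (snd X Q) ∘ₗ LinearMap.mulLeft W.K (W.map (fst X Q) l))
      (un W (1 : W.H X) q 1) = q := by
    change W.push (snd X Q) (W.map (fst X Q) l * (W.map (fst X Q) 1 * W.map (snd X Q) q)) = q
    rw [map_one, one_mul, push_snd, hl1, one_smul]
  rw [h2] at h1
  exact h1

/-- **The systems generated by finitely many algebraic classes.** -/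
theorem chain (hST : ∀ Z, S.C Z ≤ T.C Z) (hl : l ∈ S.C X) (hl1 : W.tr X l = 1) {κ : ℕ}
    (A : Finset (W.H (pw X κ))) (hA : ∀ q ∈ A, q ∈ T.C (pw X κ) ∧ ¬ NoRel S (1 : W.H X) q) :
    ∃ S' : Sys W, (∀ Z, S.C Z ≤ S'.C Z) ∧ (∀ Z, S'.C Z ≤ T.C Z) ∧ (∀ q ∈ A, q ∈ S'.C (pw X κ)) ∧
      ∃ c p, ∀ n, sn S' X n ≤ c * sn S X (n + p) := by
  classical
  induction A using Finset.induction_on with
  | empty =>
    exact ⟨S, fun _ => le_rfl, hST, fun q hq => absurd hq (Finset.notMem_empty q), 1, 0,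
      fun n => by rw [one_mul, add_zero]⟩
  | insert q A _ ih =>
    obtain ⟨S₁, h1, h2, h3, c, p, h4⟩ := ih fun q hq => hA q (Finset.mem_insert_of_mem hq)
    obtain ⟨hqT, hq⟩ := hA q (Finset.mem_insert_self _ _)
    have hq0 : q ∈ PH W (pw X κ) 0 := T.even hqT
    have hrel := rel_mono h1 hq
    unfold NoRel at hrel
    push Not at hrel
    obtain ⟨t, ht⟩ := hrel
    have hl' := h1 X hl
    refine ⟨adj S₁ hq0 hl' hl1 ht, fun Z => (h1 Z).trans fun c hc => EE_class hl' hl1 t hc, ?_, ?_,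
      (t + 1) * c, t * (κ + 1) + 1 + p, fun n => ?_⟩
    · intro Z x hx
      refine EE_ind (p := fun x => x ∈ T.C Z) (fun _ _ hx hy => Submodule.add_mem _ hx hy) t ?_
        (show x ∈ EE S₁ (un W (1 : W.H X) q) Z t from hx)
      intro i _ f hf
      exact Op.apply h2 hf (un_memC hqT i)
    · intro q' hq'
      rcases Finset.mem_insert.1 hq' with rfl | hq'
      · exact self_mem hl' hl1 hq0 (rel_all hq0 ht)
      · exact EE_class hl' hl1 t (h3 q' hq')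
    · have h5 := finrank_adj (S := S₁) (q := q) hl' hl1 t n
      have h6 := h4 (n + (t * (κ + 1) + 1))
      calc sn (adj S₁ hq0 hl' hl1 ht) X n ≤ (t + 1) * sn S₁ X (n + (t * (κ + 1) + 1)) := h5
        _ ≤ (t + 1) * (c * sn S X (n + (t * (κ + 1) + 1) + p)) := Nat.mul_le_mul_left _ h6
        _ = (t + 1) * c * sn S X (n + (t * (κ + 1) + 1 + p)) := by
          rw [mul_assoc, Nat.add_assoc n]

/-- **Finite index.** -/
theorem fin_index (hST : ∀ Z, S.C Z ≤ T.C Z) (hS : ∀ Z : 𝒱.Obj, S.Num Z = ⊥) (hl : l ∈ S.C X)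
    (hl1 : W.tr X l = 1) {κ : ℕ} {G : Set (W.H (pw X κ))}
    (hG : T.C (pw X κ) = Submodule.span W.K G) (hrel : ∀ q ∈ G, ¬ NoRel S (1 : W.H X) q)
    (hcl : ∀ S' : Sys W, (∀ Z, S'.C Z ≤ T.C Z) → T.C (pw X κ) ≤ S'.C (pw X κ) →
      ∀ n, T.C (pw X n) ≤ S'.C (pw X n)) :
    ∃ m, ∀ n, sn T X n ≤ m * sn S X n := by
  have hfg : (Submodule.span W.K G).FG := Module.Finite.iff_fg.1 inferInstance
  obtain ⟨A, hAG, hA⟩ := Submodule.fg_span_iff_fg_span_finset_subset (R := W.K) G |>.1 hfg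
  obtain ⟨S', h1, h2, h3, c, p, h4⟩ := chain (T := T) hST hl hl1 A fun q hq => by
    have h5 := hAG (Finset.mem_coe.2 hq)
    exact ⟨by rw [hG]; exact Submodule.subset_span h5, hrel q h5⟩
  have h5 : T.C (pw X κ) ≤ S'.C (pw X κ) := by
    rw [hG, hA, Submodule.span_le]
    intro q hq
    exact h3 q (Finset.mem_coe.1 hq)
  have h6 := hcl S' h2 h5
  refine ⟨c * finrank W.K (W.H X) ^ (p + 2), fun n => ?_⟩
  calc sn T X n ≤ sn S' X n := Submodule.finrank_mono (h6 n)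
    _ ≤ c * sn S X (n + p) := h4 n
    _ ≤ c * sn S X (n + p + 1) := Nat.mul_le_mul_left _ (sn_succ hl hl1 _)
    _ ≤ c * (finrank W.K (W.H X) ^ (p + 2) * sn S X n) := Nat.mul_le_mul_left _ (sn_up hS hl hl1 n p)
    _ = _ := by rw [mul_assoc]

end Pool.Agent.P8H28.AO
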