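import Pool.Agent.P8H28.AO.Main
import Pool.Agent.P8H28.AO.Ind

/-!
# The effective one percent law for absolutely Hodge classes: the theorem
-/

set_option autoImplicit false
set_option linter.unusedSectionVars false

open CategoryTheory AlgebraicGeometry TensorProduct

universe u

namespace Pool.Agent.P8H28.AO

open Module
open Pool.Agent.H914 Pool.Agent.H914.VarClass Pool.Agent.H914.VarClass.Obj
  Pool.Agent.H914.WeilCohomology
open Pool.Agent.Y133.Half Pool.Agent.Y133.Half.Sys
open Pool.Agent.Y121 Pool.Agent.Y121.AH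
open Pool.Agent.P8H28.OP
open Pool.Agent.P8H28.AT (aS hS aS_le aS_num from_pw betti
  dimSpan_true transBetti_eq_of exists_adm adm_four)
open Pool.Agent.Y121.AHS (toH)
open Pool.Agent.Y121.AHS.Full (toD)
open Pool.Agent.N996.FP

variable {k : Type u} [Field k] {𝒱 : VarClass k} {ops : CycleOps 𝒱}
  {T : AHS.HodgeTheory ops} {D : AHS.Full.Conjugates T} {X Y Q : 𝒱.Obj}

/-- A class without polynomial relations. -/
theorem sparse_of {κ j b : ℕ} (hb : b = finrank (toH T).W.K ((toH T).W.H X))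
    {q : (toH T).W.H (pw X κ)} (hq : AH.IsHodge (toH T) (pw X κ) j q)
    (hrel : NoRel (absSys (toD D)) (1 : (toH T).W.H X) q) :
    Sparse (fun n => AHS.Full.absDim D (pw X n)) (fun n => AHS.hodgeDim T (pw X n)) (κ + 1) b := by
  have hnt : Nontrivial ((toH T).W.H X) := by
    by_contra h0
    rw [not_nontrivial_iff_subsingleton] at h0
    have h1 : finrank (toH T).W.K ((toH T).W.H (pw X κ)) = 0 := by
      rw [finrank_pw, Module.finrank_zero_of_subsingleton, zero_pow (by omega)]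
    have h2 : Subsingleton ((toH T).W.H (pw X κ)) := Module.finrank_zero_iff.1 h1
    apply hrel 0
    have h3 : un (toH T).W (1 : (toH T).W.H X) q (0 + 1) = 0 := by
      change xp (toH T).W (un (toH T).W (1 : (toH T).W.H X) q 0) q = 0
      rw [Subsingleton.elim q 0, xp, map_zero, mul_zero]
    rw [h3]
    exact Submodule.zero_mem _
  have hb0 : 0 < b := by rw [hb]; exact Module.finrank_pos
  obtain ⟨l, hl, hl1⟩ := AH.exists_tr (toD D) X
  have hqT : q ∈ (hS T).C (pw X κ) := ClassPred.sp_of (Q := hodgePred (toH T)) hq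
  have key : ∀ L n : ℕ, 0 < L → 0 < n →
      ((L : ℝ) - (3 * L * (L * (κ + 1) + 3) * b ^ (L * (κ + 1) + 5) : ℕ) *
        Real.log (n + 2) / n) * AHS.Full.absDim D (pw X n) ≤ AHS.hodgeDim T (pw X n) := by
    intro L n hL hn
    have h1 := Pool.Agent.P8H28.DB.pair_rel (S := aS D) (T := hS T) aS_le aS_num hqT hrel hl hl1 hL
      hb rfl hn
    rw [← AHS.Full.absDim_eq]
    exact h1
  refine ⟨key, ?_⟩
  have h5 := Pool.Agent.P8H28.DL.rate (κ := κ) hb0 (r := fun n => AHS.Full.absDim D (pw X n))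
    (a := fun n => AHS.hodgeDim T (pw X n)) (fun n => ?_) (fun N n hN hn => ?_)
  · intro n
    have h6 := h5 n
    push_cast
    exact h6
  · rw [← AHS.Full.absDim_eq]
    exact Submodule.finrank_mono (aS_le (D := D) (pw X n))
  · have h1 := key N n hN hn
    rw [mul_div_assoc] at h1 ⊢
    refine bound_mono ?_ (log_div_nonneg n) (Nat.cast_nonneg _) h1
    apply Nat.mul_le_mul_right
    calc 3 * N * (N * (κ + 1) + 3) = 3 * N * 1 * (N * (κ + 1) + 3) := by ring
      _ ≤ 3 * N * (N + 1) * (N * (κ + 1) + 3) :=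
        Nat.mul_le_mul_right _ (Nat.mul_le_mul_left _ (by omega))

/-- The law for one power. -/
theorem law_one (D : AHS.Full.Conjugates T) (X : 𝒱.Obj) (κ b : ℕ)
    (hb : b = finrank (toH T).W.K ((toH T).W.H X)) :
    (∀ j q, AH.IsHodge (toH T) (pw X κ) j q →
      ¬ NoRel (absSys (toD D)) (1 : (toH T).W.H X) q) ∨
    Sparse (fun n => AHS.Full.absDim D (pw X n)) (fun n => AHS.hodgeDim T (pw X n)) (κ + 1) b := by
  by_cases h : ∀ j q, AH.IsHodge (toH T) (pw X κ) j q →
      ¬ NoRel (absSys (toD D)) (1 : (toH T).W.H X) q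
  · exact Or.inl h
  · push Not at h
    obtain ⟨j, q, hq, hrel⟩ := h
    exact Or.inr (sparse_of hb hq hrel)

/-- The classes on one variety. -/
theorem over_of_rel (D : AHS.Full.Conjugates T) (i : D.ι) (X : 𝒱.Obj) (κ : ℕ)
    (h : ∀ j q, AH.IsHodge (toH T) (pw X κ) j q →
      ¬ NoRel (absSys (toD D)) (1 : (toH T).W.H X) q) :
    ∃ μ : Polynomial ℤ, μ ≠ 0 ∧ ∀ a j, OverRoots D i a μ (pw X κ) j := by
  rcases subsingleton_or_nontrivial ((toH T).W.H X) with h0 | h0
  · refine ⟨1, one_ne_zero, fun a j => overRoots_iff.2 fun v _ => ?_⟩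
    have h1 : finrank (toH T).W.K ((toH T).W.H (pw X κ)) = 0 := by
      rw [finrank_pw, Module.finrank_zero_of_subsingleton, zero_pow (by omega)]
    have h2 : Subsingleton ((toH T).W.H (pw X κ)) := Module.finrank_zero_iff.1 h1
    have h3 : v = 0 := Subsingleton.elim (α := (toH T).W.H (pw X κ)) v 0
    rw [h3, nrm_zero]
    exact AddSubmonoid.zero_mem _
  · exact poly_of_rel D i X (pw X κ) h

/-- **The main theorem.** -/
theorem main (T : AHS.HodgeTheory ops) (D : AHS.Full.Conjugates T) (X : 𝒱.Obj) (b : ℕ)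
    (hb : b = dimSpan T.W X fun _ _ => True) (h a : ℕ → ℕ)
    (hh : ∀ n, h n = dimSpan T.W _ (AHS.IsHodge T (pw X n)))
    (ha : ∀ n, a n = dimSpan T.W _ (AHS.Full.IsAbsHodge D (pw X n))) :
    (∀ κ, (∀ i, ∃ μ : Polynomial ℤ, μ ≠ 0 ∧ ∀ c j, OverRoots D i c μ (pw X κ) j) ∨
      Sparse a h (κ + 1) b) ∧
    ∀ t N, b = dimSpan T.W X (AHS.IsHodge T X) + t →
      IsExp (T.W.tr X) (AHS.IsType T.pq (X := X)) X.dim t N →
      (∀ n, FromPowersAbs D X (pw X n)) ∧
      ((∃ m, ∀ n, h n ≤ m * a n) ∧ (∀ i, ∃ μ : Polynomial ℤ, μ ≠ 0 ∧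
        ∀ c Y, FromPowersAbs D X Y → ∀ j, OverRoots D i c μ Y j) ∨ Sparse a h N b) := by
  rw [dimSpan_eq, dimSpan_true] at hb
  obtain rfl : h = fun n => AHS.hodgeDim T (pw X n) := funext hh
  obtain rfl : a = fun n => AHS.Full.absDim D (pw X n) := funext ha
  refine ⟨fun κ => ?_, fun t N ht hN => ⟨from_pw D X, ?_⟩⟩
  · rcases law_one D X κ b hb with h1 | h1
    · exact Or.inl fun i => over_of_rel D i X κ h1
    · exact Or.inr h1
  · rw [hb, dimSpan_eq] at ht
    obtain rfl := transBetti_eq_of ht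
    obtain ⟨ψ, hψ, hN'⟩ := exists_adm (isExp_of T.rat hN)
    have hN4 := adm_four hN'
    obtain ⟨κ, rfl⟩ : ∃ κ, N = κ + 1 := ⟨N - 1, by omega⟩
    rcases law_one D X κ b hb with h1 | h1
    · left
      refine ⟨?_, fun i => ?_⟩
      · rcases subsingleton_or_nontrivial ((toH T).W.H X) with h0 | h0
        · refine ⟨0, fun n => ?_⟩
          have h2 : finrank (toH T).W.K ((toH T).W.H (pw X n)) = 0 := by
            rw [finrank_pw, Module.finrank_zero_of_subsingleton, zero_pow (by omega)]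
          have h3 := Submodule.finrank_le ((hS T).C (pw X n))
          rw [h2] at h3
          rw [zero_mul]
          exact h3
        · obtain ⟨l, hl, hl1⟩ := AH.exists_tr (toD D) X
          obtain ⟨m, hm⟩ := fin_index (S := aS D) (T := hS T) aS_le aS_num hl hl1 (κ := κ)
            (G := {c | ∃ j, AH.IsHodge (toH T) (pw X κ) j c}) rfl
            (fun q hq => by obtain ⟨j, hj⟩ := hq; exact h1 j q hj)
            (fun S' hS' h5 => admT_c hψ hN' (S'.csys X) (fun n => hS' _) h5)
          refine ⟨m, fun n => ?_⟩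
          change AHS.hodgeDim T (pw X n) ≤ m * AHS.Full.absDim D (pw X n)
          rw [← AHS.Full.absDim_eq]
          exact hm n
      · obtain ⟨μ, hμ, h2⟩ := over_of_rel D i X κ h1
        exact ⟨μ, hμ, fun c Y hY j => one_all hψ hN' (fun j => h2 c j) hY j⟩
    · exact Or.inr h1

end Pool.Agent.P8H28.AO
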