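import Pool.Agent.P8H28.AO.Pred
import Pool.Agent.P8H28.AO.Conv
import Pool.Agent.P8H28.DB.Pair

/-!
# The effective one percent law for absolutely Hodge classes
-/

set_option autoImplicit false
set_option linter.unusedSectionVars false

open CategoryTheory AlgebraicGeometry TensorProduct

universe u

namespace Pool.Agent.P8H28.AO

open Module
open Pool.Agent.H914 Pool.Agent.H914.VarClass Pool.Agent.H914.VarClass.Obj
  Pool.Agent.H914.WeilCohomology
open Pool.Agent.Y133.Half Pool.Agent.Y133.Half.Sys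
open Pool.Agent.Y121 Pool.Agent.Y121.AH
open Pool.Agent.P8H28.OP
open Pool.Agent.P8H28.AT (aS hS aS_le aS_num from_pw)

variable {k : Type u} [Field k] {𝒱 : VarClass k} {ops : CycleOps 𝒱}

section Span

variable {T : AH.HodgeTheory ops} (D : AH.Conjugates T) {X Q : 𝒱.Obj}

/-- A Hodge class with a polynomial relation is mapped into the span of the Hodge classes. -/
theorem span_of_rel (a : D.J) [Nontrivial ((D.T' (D.t a)).W.H X)] {j : ℕ} {q : T.W.H Q}
    (hq : AH.IsHodge T Q j q) (h : ¬ NoRel (absSys D) (1 : T.W.H X) q) :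
    (D.cmp a).e Q (em T.W (D.L a) q) ∈ Submodule.span (baseW (D.T' (D.t a)).W (D.L a)).K
      {x | ∃ c', AH.IsHodge (D.T' (D.t a)) Q j c' ∧ em (D.T' (D.t a)).W (D.L a) c' = x} := by
  unfold NoRel at h
  push Not at h
  obtain ⟨t, h⟩ := h
  have hrel := rel_all (PH.of' (b := 0) (by omega) hq.1) h
  obtain ⟨τ⟩ := D.emb a
  refine mem_span_hodge τ fun g => ?_
  set R := rlz (D.cmp a) (g.toRingHom.comp τ) with hR
  have h1 : gop (D.T' (D.t a)) Q (R.E Q q) = R.E Q q := by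
    refine fix_of_rel' R (X := X) (muT_ne (T' := D.T' (D.t a)) (fun i => qn X Q i) t) hq.1
      fun m => ?_
    exact rel_EE R (fun X x hx => abs_fix D a _ X hx) (hrel m)
  exact pq_of_fix' (R.gr hq.1) h1

end Span

open Pool.Agent.Y121.AHS (toH mem_hodgeSums)
open Pool.Agent.Y121.AHS.Full (toD cmpH abs_of)
open Pool.Agent.N996.FP

variable {T : AHS.HodgeTheory ops} {D : AHS.Full.Conjugates T} {X Y Q : 𝒱.Obj}

lemma comb_of_sums {T : AHS.HodgeTheory ops} {L : Type} [Field L] [Algebra T.W.K L] {F : Set L}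
    {j : ℕ} {x : (baseW (toH T).W L).H Y} (hx : x ∈ AH.hodgeSums (toH T) L F Y j) :
    IsComb F (AHS.IsHodge T Y j) (show AHS.HL T.W L Y from x) := by
  induction hx using AddSubmonoid.closure_induction with
  | mem x hx =>
    obtain ⟨l, hl, c, hc, rfl⟩ := hx
    exact ⟨1, fun _ => l, fun _ => c, fun _ => ⟨hl, hc⟩,
      (Fin.sum_univ_one (M := AHS.Ext T.W.K L (T.W.H Y))
        (fun _ => AHS.extSm T.W.K L l (AHS.extEm T.W.K L c))).symm⟩
  | zero => exact ⟨0, Fin.elim0, Fin.elim0, fun i => i.elim0, (Fin.sum_univ_zero _).symm⟩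
  | add x y _ _ hx hy =>
    obtain ⟨r, l, c, h1, h2⟩ := hx
    obtain ⟨r', l', c', h1', h2'⟩ := hy
    refine ⟨r + r', Fin.append l l', Fin.append c c', fun i => ?_, ?_⟩
    · refine Fin.addCases (fun i => ?_) (fun i => ?_) i
      · rw [Fin.append_left, Fin.append_left]; exact h1 i
      · rw [Fin.append_right, Fin.append_right]; exact h1' i
    · rw [Fin.sum_univ_add]
      simp only [Fin.append_left, Fin.append_right]
      exact congrArg₂ (fun x y : AHS.HL T.W L Y => x + y) h2 h2'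

lemma overRoots_iff {i : D.ι} {a : D.J i} {μ : Polynomial ℤ} {j : ℕ} :
    OverRoots D i a μ Y j ↔ ∀ v, AH.IsHodge (toH T) Y j v → nrm (cmpH D i a) Y j v ∈
      AH.hodgeSums (toH (D.T' i)) (D.L i a) (rts (D.L i a) μ) Y j := by
  constructor
  · intro h v hv
    obtain ⟨w, hw, r, l, c, h1, h2⟩ := h v hv
    have h4 : nrm (cmpH D i a) Y j v =
        (show (baseW (toH (D.T' i)).W (D.L i a)).H Y from w) := nrm_eq_iff (cmpH D i a) |>.2 hw
    rw [h4]
    have h3 := sum_mem_hodgeSums (T := toH (D.T' i)) (L := D.L i a) (X := Y) (j := j) l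
      (fun i => (h1 i).1) (fun i => (h1 i).2)
    exact h2 ▸ h3
  · intro h c hc
    exact ⟨nrm (cmpH D i a) Y j c, (nrm_eq_iff (cmpH D i a)).1 rfl, comb_of_sums (h c hc)⟩

/-- The polynomial for the classes on one variety. -/
theorem poly_of_rel (D : AHS.Full.Conjugates T) (i : D.ι) (X Q : 𝒱.Obj) [Nontrivial ((toH T).W.H X)]
    (h : ∀ j q, AH.IsHodge (toH T) Q j q → ¬ NoRel (absSys (toD D)) (1 : (toH T).W.H X) q) :
    ∃ μ : Polynomial ℤ, μ ≠ 0 ∧ ∀ a j, OverRoots D i a μ Q j := by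
  rcases isEmpty_or_nonempty (D.J i) with hJ | ⟨⟨a₀⟩⟩
  · exact ⟨1, one_ne_zero, fun a => hJ.elim a⟩
  have hnt : Nontrivial ((toH (D.T' i)).W.H X) := nontrivial_of_cmp (cmpH D i) (Z := X) a₀
  obtain ⟨l, hl, hl1⟩ := exists_tr_hodge (toH (D.T' i)) X
  obtain ⟨μ, hμ, hall⟩ := exists_poly (T := toH T) (T' := toH (D.T' i)) (cmpH D i) (Q := Q)
    (fun j q hq y hy => integral_of_rel (cmpH D i) (toD D) (abs_of i)
      (PH.of' (b := 0) (by omega) hl.1) hl1 hq.1 hy (h j q hq))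
    (fun a j v hv => by
      have hnt' : Nontrivial (((toD D).T' ((toD D).t ⟨i, a⟩)).W.H X) := hnt
      have h1 := span_of_rel (X := X) (toD D) ⟨i, a⟩ hv (h j v hv)
      exact Submodule.smul_mem _ _ h1)
  exact ⟨μ, hμ, fun a j => overRoots_iff.2 (hall a j)⟩

/-- One power decides. -/
theorem one_all {ψ : RForm T.W X} (hψ : IsPolarisation T X ψ) {N : ℕ}
    (hN : AdmT T X ψ (transBetti T X) N) {i : D.ι} {a : D.J i} {μ : Polynomial ℤ}
    (h : ∀ j, OverRoots D i a μ (pw X (N - 1)) j) (hY : FromPowersAbs D X Y) (j : ℕ) :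
    OverRoots D i a μ Y j := by
  set F := rts (D.L i a) μ with hF
  set P := flPred (cmpH D i a) F with hP
  have h1 : ∀ n, (hodgePred (toH T)).sp (pw X n) ≤ P.sp (pw X n) :=
    admT_c hψ hN (P.sys.csys X) (fun n => fl_le _ _ _) (fl_all _ _ fun j => overRoots_iff.1 (h j))
  have h0 : ∀ {Z : 𝒱.Obj} {i' : ℕ} {z : T.W.H Z}, AHS.Full.IsAbsHodge D Z i' z →
      z ∈ P.sp Z := by
    intro Z i' z hz
    have hz' := AHS.Full.isAbsHodge_iff.2 hz
    obtain ⟨z', hz1, hz2⟩ := abs_of i Z i' z hz'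
    refine ClassPred.sp_of (Q := P) (j := i') ⟨hz'.1, ?_⟩
    rw [hz2 a]
    exact em_mem_sums hz1
  refine overRoots_iff.2 fun c hc => fl_of_mem _ _ hc ?_
  obtain ⟨r, m, a', b', u, v, huv, hsum⟩ := hY
  have h2 := hsum c
  rw [← h2]
  refine Submodule.sum_mem _ fun i' _ => ?_
  have hu : T.W.corr (u i') ∈ P.sys.Op Y (pw X (m i')) := Sys.Op.corr (S := P.sys) (h0 (huv i').1)
  have hv : T.W.corr (v i') ∈ P.sys.Op (pw X (m i')) Y := Sys.Op.corr (S := P.sys) (h0 (huv i').2)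
  have h3 : T.W.corr (u i') c ∈ (AH.hodgeSys (toH T)).C (pw X (m i')) :=
    Sys.Op.apply (S := P.sys) (T := hodgeSys (toH T)) (fun Z => fl_le _ _ Z) hu
      (ClassPred.sp_of (Q := hodgePred (toH T)) hc)
  have h4 : T.W.corr (u i') c ∈ P.sys.C (pw X (m i')) := h1 _ h3
  exact Sys.Op.apply (S := P.sys) (T := P.sys) (fun _ => le_rfl) hv h4

end Pool.Agent.P8H28.AO
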