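import Pool.Agent.P8H28.OP.Fix
import Pool.Agent.Y121.AH.Alg2
import Pool.Agent.Y121.AH.Tot

/-!
# The coefficients of the comparison isomorphisms on a class with a polynomial relation
-/

set_option autoImplicit false
set_option linter.unusedSectionVars false

open CategoryTheory AlgebraicGeometry TensorProduct

universe u

namespace Pool.Agent.P8H28.AO

open Module
open Pool.Agent.H914 Pool.Agent.H914.VarClass Pool.Agent.H914.VarClass.Obj
  Pool.Agent.H914.WeilCohomology
open Pool.Agent.Y133.Half Pool.Agent.Y133.Half.Sys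
open Pool.Agent.Y121.AH
open Pool.Agent.P8H28.OP

section Alg

variable {K A : Type*} [Field K] [CommRing A] [Algebra K A]

/-- An element with powers in a finite-dimensional subspace is integral. -/
lemma isIntegral_of_pow_mem {M : Submodule K A} [Module.Finite K M] {v : A}
    (h : ∀ m : ℕ, v ^ m ∈ M) : IsIntegral K v := by
  refine IsIntegral.of_mem_of_fg (Algebra.adjoin K {v}) ?_ v (Algebra.subset_adjoin rfl)
  have h1 : Subalgebra.toSubmodule (Algebra.adjoin K {v}) ≤ M := by
    rw [Algebra.adjoin_eq_span, Submodule.span_le]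
    intro x hx
    obtain ⟨n, rfl⟩ := Submonoid.mem_closure_singleton.1 hx
    exact h n
  have h2 : Module.Finite K (Subalgebra.toSubmodule (Algebra.adjoin K {v})) :=
    Submodule.finiteDimensional_of_le h1
  exact Module.Finite.iff_fg.1 h2

end Alg

variable {k : Type u} [Field k] {𝒱 : VarClass k} {ops : CycleOps 𝒱}

section Fam

variable {T T' : HodgeTheory ops} {J : Type u} {L : J → Type} [∀ a, Field (L a)]
  [∀ a, Algebra T.W.K (L a)] [∀ a, Algebra T'.W.K (L a)]
  (C : ∀ a, Comparison (baseW T.W (L a)) (baseW T'.W (L a))) {X Y P Q Z : 𝒱.Obj}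

/-- The values for all comparison isomorphisms. -/
noncomputable def vv (Z : 𝒱.Obj) (j : ℕ) (x : T.W.H Z) (y : T'.W.H Z) : ∀ a, L a :=
  fun a => val (C a) Z j x y

lemma vv_add_left (j : ℕ) (x x' : T.W.H Z) (y : T'.W.H Z) :
    vv C Z j (x + x') y = vv C Z j x y + vv C Z j x' y :=
  funext fun a => val_add_left (C a) j x x' y

lemma vv_add_right (j : ℕ) (x : T.W.H Z) (y y' : T'.W.H Z) :
    vv C Z j x (y + y') = vv C Z j x y + vv C Z j x y' :=
  funext fun a => val_add_right (C a) j x y y'

lemma vv_smul_left (j : ℕ) (r : T.W.K) (x : T.W.H Z) (y : T'.W.H Z) :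
    vv C Z j (r • x) y = r • vv C Z j x y :=
  funext fun a => val_smul_left (C a) j r x y

lemma vv_smul_right (j : ℕ) (q : ℚ) (x : T.W.H Z) (y : T'.W.H Z) :
    vv C Z j x ((q : T'.W.K) • y) = (q : T.W.K) • vv C Z j x y :=
  funext fun a => val_smul_right (C a) j q x y

lemma vv_zero_left (j : ℕ) (y : T'.W.H Z) : vv C Z j 0 y = 0 :=
  funext fun a => val_zero_left (C a) j y

lemma vv_zero_right (j : ℕ) (x : T.W.H Z) : vv C Z j x 0 = 0 :=
  funext fun a => val_zero_right (C a) j x

/-- The values of the pairing for the degrees at most `2 dim P` span a finite-dimensional space. -/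
lemma exists_finA (P : 𝒱.Obj) : ∃ M : Submodule T.W.K (∀ a, L a), Module.Finite T.W.K M ∧
    ∀ j ≤ P.dim, ∀ x y, vv C P j x y ∈ M := by
  let b := Module.finBasis T.W.K (T.W.H P)
  let b' := Module.finBasis T'.W.K (T'.W.H P)
  let S : Set (∀ a, L a) := Set.range fun r : Fin (P.dim + 1) × Fin (finrank T.W.K (T.W.H P)) ×
    Fin (finrank T'.W.K (T'.W.H P)) => vv C P r.1 (b r.2.1) (b' r.2.2)
  refine ⟨Submodule.span T.W.K S, Module.Finite.iff_fg.2
    (Submodule.fg_span (Set.finite_range _)), ?_⟩
  intro j hj x y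
  have h1 : ∀ i l, vv C P j (b i) (b' l) ∈ Submodule.span T.W.K S := fun i l =>
    Submodule.subset_span ⟨(⟨j, by omega⟩, i, l), rfl⟩
  have h2 : ∀ i y, vv C P j (b i) y ∈ Submodule.span T.W.K S := by
    intro i y
    refine basis_ind b' (p := fun y => vv C P j (b i) y ∈ Submodule.span T.W.K S) ?_ ?_ ?_ y
    · rw [vv_zero_right]; exact Submodule.zero_mem _
    · intro y y' hy hy'; rw [vv_add_right]; exact Submodule.add_mem _ hy hy'
    · intro r l
      obtain ⟨q, rfl⟩ := T'.rat r
      rw [vv_smul_right]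
      exact Submodule.smul_mem _ _ (h1 i l)
  refine basis_ind b (p := fun x => vv C P j x y ∈ Submodule.span T.W.K S) ?_ ?_ ?_ x
  · rw [vv_zero_left]; exact Submodule.zero_mem _
  · intro y y' hy hy'; rw [vv_add_left]; exact Submodule.add_mem _ hy hy'
  · intro r i
    rw [vv_smul_left]
    exact Submodule.smul_mem _ _ (h2 i y)

variable (D : Conjugates T)
  (hC : ∀ (Z : 𝒱.Obj) (i : ℕ) z, IsAbsHodge D Z i z → ∃ z', IsHodge T' Z i z' ∧
      ∀ a, nrm (C a) Z i z = em T'.W (L a) z')

include hC

/-- Induction for the operators given by absolutely Hodge classes. -/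
lemma op_ind {j l : ℕ} {p : (∀ a, (baseW T'.W (L a)).H Q) → Prop} (h0 : p fun _ => 0)
    (hadd : ∀ x y, p x → p y → p fun a => x a + y a) {t : T.W.H P} (ht : t ∈ T.W.gr P (2 * l))
    (h : ∀ (i : ℕ) c', IsHodge T' (P.prod Q) i c' → i + l = j + P.dim →
      p fun a => (baseW T'.W (L a)).corr (em T'.W (L a) c') (nrm (C a) P l t))
    {f : T.W.H P →ₗ[T.W.K] T.W.H Q} (hf : f ∈ (absSys D).Op P Q) :
    p fun a => nrm (C a) Q j (H914.proj (T.W.isInternal Q) (2 * j) (f t)) := by
  obtain ⟨c, hc, rfl⟩ := Sys.mem_Op.1 hf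
  have hc' : c ∈ (absPred D).sp (P.prod Q) := hc
  refine ClassPred.sp_ind (Q := absPred D) (q := fun c => p fun a => nrm (C a) Q j
    (H914.proj (T.W.isInternal Q) (2 * j) (T.W.corr c t))) ?_ ?_ ?_ hc'
  · intro i c hc
    obtain ⟨z', hz', hzz⟩ := hC _ i c hc
    have h1 : c * T.W.map (fst P Q) t ∈ T.W.gr (P.prod Q) (2 * (i + l)) := by
      rw [mul_add]; exact T.W.mul_mem hc.1.1 (T.W.map_mem _ ht)
    by_cases hil : i + l = j + P.dim
    · have h2 : T.W.corr c t ∈ T.W.gr Q (2 * j) := by
        rw [corr_apply]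
        exact push_gr _ (by rw [dim_prod]; omega) h1
      have h3 : (fun a => nrm (C a) Q j (H914.proj (T.W.isInternal Q) (2 * j) (T.W.corr c t))) =
          fun a => (baseW T'.W (L a)).corr (em T'.W (L a) z') (nrm (C a) P l t) := by
        funext a
        rw [proj_same _ h2, corr_apply, corr_apply, nrm_push (C a) (snd P Q) (j := i + l) (l := j)
          (by rw [dim_prod]; omega), nrm_mul, nrm_map, hzz a]
      rw [h3]
      exact h i z' hz' hil
    · have h2 : H914.proj (T.W.isInternal Q) (2 * j) (T.W.corr c t) = 0 := by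
        rw [corr_apply]
        by_cases hlt : i + l < P.dim
        · rw [push_neg _ (by rw [dim_prod]; omega) h1, map_zero]
        · exact proj_ne _ (push_gr (l := i + l - P.dim) _ (by rw [dim_prod]; omega) h1)
            (by omega)
      have h3 : (fun a => nrm (C a) Q j (H914.proj (T.W.isInternal Q) (2 * j) (T.W.corr c t))) =
          fun _ => 0 := funext fun a => by rw [h2, nrm_zero]
      rw [h3]
      exact h0
  · have h3 : (fun a => nrm (C a) Q j (H914.proj (T.W.isInternal Q) (2 * j)
        (T.W.corr (0 : T.W.H (P.prod Q)) t))) = fun _ => 0 := by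
      funext a
      rw [corr_zero, LinearMap.zero_apply, map_zero, nrm_zero]
    rw [h3]
    exact h0
  · intro x y hx hy
    have h3 : (fun a => nrm (C a) Q j (H914.proj (T.W.isInternal Q) (2 * j)
        (T.W.corr (x + y) t))) =
        fun a => nrm (C a) Q j (H914.proj (T.W.isInternal Q) (2 * j) (T.W.corr x t)) +
          nrm (C a) Q j (H914.proj (T.W.isInternal Q) (2 * j) (T.W.corr y t)) := by
      funext a
      rw [corr_add, LinearMap.add_apply, map_add, nrm_add]
    rw [h3]
    exact hadd _ _ hx hy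

/-- The values on the image of a class under an operator. -/
lemma vv_op {M : Submodule T.W.K (∀ a, L a)} (hM : ∀ j ≤ P.dim, ∀ x y, vv C P j x y ∈ M) {j l : ℕ}
    {t : T.W.H P} (ht : t ∈ T.W.gr P (2 * l)) {f : T.W.H P →ₗ[T.W.K] T.W.H Q}
    (hf : f ∈ (absSys D).Op P Q) {y : T'.W.H Q} :
    vv C Q j (H914.proj (T.W.isInternal Q) (2 * j) (f t)) y ∈ M := by
  have h1 := op_ind C D hC (j := j) (p := fun w => (fun a => (show L a from
    (baseW T'.W (L a)).tr Q (w a * em T'.W (L a) y))) ∈ M) ?_ ?_ ht ?_ hf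
  · exact h1
  · have h2 : (fun a => (show L a from
        (baseW T'.W (L a)).tr Q ((0 : (baseW T'.W (L a)).H Q) * em T'.W (L a) y))) = 0 := by
      funext a
      change (baseW T'.W (L a)).tr Q ((0 : (baseW T'.W (L a)).H Q) * em T'.W (L a) y) = 0
      rw [zero_mul, map_zero]
    rw [h2]
    exact Submodule.zero_mem _
  · intro x y' hx hy
    have h2 : (fun a => (show L a from
        (baseW T'.W (L a)).tr Q ((x a + y' a) * em T'.W (L a) y))) =
        (fun a => (show L a from (baseW T'.W (L a)).tr Q (x a * em T'.W (L a) y))) +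
        fun a => (show L a from (baseW T'.W (L a)).tr Q (y' a * em T'.W (L a) y)) := by
      funext a
      change (baseW T'.W (L a)).tr Q ((x a + y' a) * em T'.W (L a) y) =
        (baseW T'.W (L a)).tr Q (x a * em T'.W (L a) y) +
        (baseW T'.W (L a)).tr Q (y' a * em T'.W (L a) y)
      rw [add_mul, map_add]
    rw [h2]
    exact Submodule.add_mem _ hx hy
  · intro i c' hc' hil
    have hc0 : c' ∈ PH T'.W (P.prod Q) 0 := PH.of' (by omega) hc'.1
    by_cases hl : l ≤ P.dim
    · have h2 : (fun a => (show L a from (baseW T'.W (L a)).tr Q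
          ((baseW T'.W (L a)).corr (em T'.W (L a) c') (nrm (C a) P l t) * em T'.W (L a) y))) =
          vv C P l t (T'.W.corr (T'.W.map (swap Q P) c') y) := by
        funext a
        change (baseW T'.W (L a)).tr Q
          ((baseW T'.W (L a)).corr (em T'.W (L a) c') (nrm (C a) P l t) * em T'.W (L a) y) = _
        rw [tr_corr' (em_PH hc0), em_map, em_corr]
        rfl
      rw [h2]
      exact hM l hl t _
    · have h2 : (fun a => (show L a from (baseW T'.W (L a)).tr Q
          ((baseW T'.W (L a)).corr (em T'.W (L a) c') (nrm (C a) P l t) * em T'.W (L a) y))) = 0 := by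
        funext a
        have h3 : t = 0 := by
          rw [T.W.gr_eq_bot P _ (by omega)] at ht
          exact (Submodule.mem_bot _).1 ht
        change (baseW T'.W (L a)).tr Q
          ((baseW T'.W (L a)).corr (em T'.W (L a) c') (nrm (C a) P l t) * em T'.W (L a) y) = 0
        rw [h3, nrm_zero, map_zero, zero_mul, map_zero]
      rw [h2]
      exact Submodule.zero_mem _

end Fam

end Pool.Agent.P8H28.AO
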