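import Pool.Agent.P8H28.AO.Alg

/-!
# The classes with coefficients in a field
-/

set_option autoImplicit false
set_option linter.unusedSectionVars false

open CategoryTheory AlgebraicGeometry TensorProduct

universe u

namespace Pool.Agent.P8H28.AO

open Module
open Pool.Agent.H914 Pool.Agent.H914.VarClass Pool.Agent.H914.VarClass.Obj
  Pool.Agent.H914.WeilCohomology
open Pool.Agent.Y133.Half Pool.Agent.Y133.Half.Sys
open Pool.Agent.Y121.AH

variable {k : Type u} [Field k] {𝒱 : VarClass k} {ops : CycleOps 𝒱}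

section Sums

variable {T : HodgeTheory ops} {L : Type} [Field L] [Algebra T.W.K L] {X Y : 𝒱.Obj}
  {F : Subfield L}

lemma sums_smul {j : ℕ} {l : (baseW T.W L).K} (hl : l ∈ F) {x : (baseW T.W L).H X}
    (hx : x ∈ hodgeSums T L F X j) : l • x ∈ hodgeSums T L F X j := by
  induction hx using AddSubmonoid.closure_induction with
  | mem x hx =>
    obtain ⟨r, hr, c, hc, rfl⟩ := hx
    refine AddSubmonoid.subset_closure ⟨l * r, F.mul_mem hl hr, c, hc, ?_⟩
    rw [mul_smul]
  | zero => rw [smul_zero]; exact AddSubmonoid.zero_mem _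
  | add x y _ _ hx hy => rw [smul_add]; exact AddSubmonoid.add_mem _ hx hy

lemma sums_mul {i j : ℕ} {x y : (baseW T.W L).H X} (hx : x ∈ hodgeSums T L F X i)
    (hy : y ∈ hodgeSums T L F X j) : x * y ∈ hodgeSums T L F X (i + j) := by
  induction hx using AddSubmonoid.closure_induction with
  | mem x hx =>
    obtain ⟨r, hr, c, hc, rfl⟩ := hx
    induction hy using AddSubmonoid.closure_induction with
    | mem y hy =>
      obtain ⟨s, hs, d, hd, rfl⟩ := hy
      refine AddSubmonoid.subset_closure ⟨r * s, F.mul_mem hr hs, c * d, hc.mul hd, ?_⟩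
      rw [em_mul, smul_mul_smul_comm]
    | zero => rw [mul_zero]; exact AddSubmonoid.zero_mem _
    | add x y _ _ hx hy => rw [mul_add]; exact AddSubmonoid.add_mem _ hx hy
  | zero => rw [zero_mul]; exact AddSubmonoid.zero_mem _
  | add x y _ _ hx hy => rw [add_mul]; exact AddSubmonoid.add_mem _ hx hy

lemma sums_map (f : X ⟶ Y) {j : ℕ} {y : (baseW T.W L).H Y} (hy : y ∈ hodgeSums T L F Y j) :
    (baseW T.W L).map f y ∈ hodgeSums T L F X j := by
  induction hy using AddSubmonoid.closure_induction with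
  | mem y hy =>
    obtain ⟨s, hs, d, hd, rfl⟩ := hy
    refine AddSubmonoid.subset_closure ⟨s, hs, T.W.map f d, hd.map f, ?_⟩
    rw [← em_map, map_smul]
  | zero => rw [map_zero]; exact AddSubmonoid.zero_mem _
  | add x y _ _ hx hy => rw [map_add]; exact AddSubmonoid.add_mem _ hx hy

lemma sums_push (f : X ⟶ Y) {j l : ℕ} (h : l + X.dim = j + Y.dim) {x : (baseW T.W L).H X}
    (hx : x ∈ hodgeSums T L F X j) : (baseW T.W L).push f x ∈ hodgeSums T L F Y l := by
  induction hx using AddSubmonoid.closure_induction with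
  | mem y hy =>
    obtain ⟨s, hs, d, hd, rfl⟩ := hy
    refine AddSubmonoid.subset_closure ⟨s, hs, T.W.push f d, hd.push f h, ?_⟩
    rw [← em_push, map_smul]
  | zero => rw [map_zero]; exact AddSubmonoid.zero_mem _
  | add x y _ _ hx hy => rw [map_add]; exact AddSubmonoid.add_mem _ hx hy

lemma em_mem_sums {j : ℕ} {c : T.W.H X} (hc : IsHodge T X j c) :
    em T.W L c ∈ hodgeSums T L F X j :=
  AddSubmonoid.subset_closure ⟨1, F.one_mem, c, hc, one_smul _ _⟩

end Sums

variable {T T' : HodgeTheory ops} {L : Type} [Field L] [Algebra T.W.K L] [Algebra T'.W.K L]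
  (C : Comparison (baseW T.W L) (baseW T'.W L)) (F : Subfield L) {X Y : 𝒱.Obj}

/-- The Hodge classes which are mapped to linear combinations with coefficients in `F` of Hodge
classes. -/
noncomputable def flPred : ClassPred T.W where
  P X j v := IsHodge T X j v ∧ nrm C X j v ∈ hodgeSums T' L F X j
  gr h := h.1.1
  zero := ⟨IsHodge.zero, by rw [nrm_zero]; exact AddSubmonoid.zero_mem _⟩
  add ha hb := ⟨ha.1.add hb.1, by rw [nrm_add]; exact AddSubmonoid.add_mem _ ha.2 hb.2⟩
  smul := by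
    intro X j r a ha
    refine ⟨ha.1.smul r, ?_⟩
    obtain ⟨q, rfl⟩ := T.rat r
    rw [nrm_smul]
    exact sums_smul (SubfieldClass.ratCast_mem F q) ha.2
  cl := by
    intro X j z hz
    refine ⟨IsHodge.cl hz, ?_⟩
    have h1 : nrm C X j (T.W.cl X z) = em T'.W L (T'.W.cl X z) := by
      rw [nrm_eq_iff, ← em_cl, ← em_cl, C.cyc hz]
    rw [h1]
    exact em_mem_sums (IsHodge.cl hz)
  mul := by
    intro X i j a b ha hb
    refine ⟨ha.1.mul hb.1, ?_⟩
    rw [nrm_mul]
    exact sums_mul ha.2 hb.2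
  map := by
    intro X Y f j a ha
    refine ⟨ha.1.map f, ?_⟩
    rw [nrm_map]
    exact sums_map f ha.2
  push := by
    intro X Y f j l h a ha
    refine ⟨ha.1.push f h, ?_⟩
    rw [nrm_push C f h]
    exact sums_push f h ha.2

lemma fl_le (Z : 𝒱.Obj) : (flPred C F).sp Z ≤ (hodgePred T).sp Z :=
  Submodule.span_mono fun _ ⟨j, hj⟩ => ⟨j, hj.1⟩

lemma fl_of_mem {Z : 𝒱.Obj} {j : ℕ} {v : T.W.H Z} (hv : IsHodge T Z j v)
    (h : v ∈ (flPred C F).sp Z) : nrm C Z j v ∈ hodgeSums T' L F Z j := by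
  have h1 := ClassPred.sp_proj (Q := flPred C F) h j
  rw [proj_same _ hv.1] at h1
  exact h1.2

lemma fl_all {Z : 𝒱.Obj} (h : ∀ j v, IsHodge T Z j v → nrm C Z j v ∈ hodgeSums T' L F Z j) :
    (hodgePred T).sp Z ≤ (flPred C F).sp Z :=
  Submodule.span_mono fun _ ⟨j, hj⟩ => ⟨j, hj, h j _ hj⟩

end Pool.Agent.P8H28.AO
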